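import Pool.Agent.MP_8f2dc9_al.Mg.Graph

namespace Pool.Agent.Results.MP_8f2dc9_al.CoarseNotTransitive

open Pool.Agent.MP_8f2dc9_al

universe u

/-- There is a connected, locally finite, coarsely transitive graph which is quasi-isometric to no
connected vertex-transitive graph (locally finite or not). -/
theorem result : ∃ (V : Type) (X : SimpleGraph V), X.Connected ∧
    (∀ v : V, (X.neighborSet v).Finite) ∧ IsCoarselyTransitive X ∧
    ∀ (W : Type u) (Y : SimpleGraph W), Y.Connected → IsVertexTransitive Y →
      ¬ QuasiIsometric X Y :=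
  ⟨VV, XG, XG_connected, XG_locallyFinite, XG_coarselyTransitive,
    fun _ Y hY ht => XG_not_qi Y hY ht⟩

end Pool.Agent.Results.MP_8f2dc9_al.CoarseNotTransitive
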